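import Pool.Agent.H10.CE.Targets

/-!
# STE: the sum over one more step
-/

set_option autoImplicit false

open Finset Matrix Pool.Agent.H10.CE

namespace Pool.Agent.H77.CE

/-- A set of naturals with small differences is small. -/
theorem card_le_of_diff (A : Finset ℕ) (S : ℕ) (h : ∀ n ∈ A, ∀ n' ∈ A, n < n' + S) :
    A.card ≤ S := by
  rcases A.eq_empty_or_nonempty with hA | hA
  · simp [hA]
  · have h1 : A ⊆ Finset.Ico (A.min' hA) (A.min' hA + S) := by
      intro n hn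
      rw [Finset.mem_Ico]
      exact ⟨A.min'_le n hn, h n hn _ (A.min'_mem hA)⟩
    have h2 := Finset.card_le_card h1
    simpa using h2

theorem snoc_last {m : ℕ} (e : Fin m → ℕ × ℕ) (x : ℕ × ℕ) :
    (Fin.snoc e x : Fin (m + 1) → ℕ × ℕ) (Fin.last m) = x := Fin.snoc_last (α := fun _ => ℕ × ℕ) x e

theorem snoc_cast {m : ℕ} (e : Fin m → ℕ × ℕ) (x : ℕ × ℕ) (t : Fin m) :
    (Fin.snoc e x : Fin (m + 1) → ℕ × ℕ) t.castSucc = e t :=
  Fin.snoc_castSucc (α := fun _ => ℕ × ℕ) x e t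

open Classical in
theorem uu_last {m : ℕ} (e : Fin m → ℕ × ℕ) (x : ℕ × ℕ) :
    uu (Fin.snoc e x : Fin (m + 1) → ℕ × ℕ) (Fin.last m) =
      if ∃ t : Fin m, (e t).2 = x.2 ∧ (e t).1 % x.2 = x.1 % x.2 then (x.2 : ℝ) else 1 := by
  have h : (∃ t' < Fin.last m, ((Fin.snoc e x : Fin (m + 1) → ℕ × ℕ) t').2 =
      ((Fin.snoc e x : Fin (m + 1) → ℕ × ℕ) (Fin.last m)).2 ∧
      ((Fin.snoc e x : Fin (m + 1) → ℕ × ℕ) t').1 %
        ((Fin.snoc e x : Fin (m + 1) → ℕ × ℕ) (Fin.last m)).2 =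
      ((Fin.snoc e x : Fin (m + 1) → ℕ × ℕ) (Fin.last m)).1 %
        ((Fin.snoc e x : Fin (m + 1) → ℕ × ℕ) (Fin.last m)).2) ↔
      ∃ t : Fin m, (e t).2 = x.2 ∧ (e t).1 % x.2 = x.1 % x.2 := by
    rw [snoc_last]
    constructor
    · rintro ⟨t', ht', h1, h2⟩
      obtain ⟨t, rfl⟩ := Fin.exists_castSucc_eq.mpr ht'.ne
      rw [snoc_cast] at h1 h2
      exact ⟨t, h1, h2⟩
    · rintro ⟨t, h1, h2⟩
      refine ⟨t.castSucc, Fin.castSucc_lt_last t, ?_, ?_⟩
      · rw [snoc_cast]; exact h1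
      · rw [snoc_cast]; exact h2
  unfold uu
  rw [if_congr h rfl rfl, snoc_last]

open Classical in
theorem rr_last {m : ℕ} (R Q : ℝ) (e : Fin m → ℕ × ℕ) (x : ℕ × ℕ) :
    rr R Q (Fin.snoc e x : Fin (m + 1) → ℕ × ℕ) (Fin.last m) =
      if ∃ t : Fin m, (e t).2 = x.2 then Q else R := by
  have h : (∃ t' < Fin.last m, ((Fin.snoc e x : Fin (m + 1) → ℕ × ℕ) t').2 =
      ((Fin.snoc e x : Fin (m + 1) → ℕ × ℕ) (Fin.last m)).2) ↔
      ∃ t : Fin m, (e t).2 = x.2 := by
    rw [snoc_last]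
    constructor
    · rintro ⟨t', ht', h1⟩
      obtain ⟨t, rfl⟩ := Fin.exists_castSucc_eq.mpr ht'.ne
      rw [snoc_cast] at h1
      exact ⟨t, h1⟩
    · rintro ⟨t, h1⟩
      exact ⟨t.castSucc, Fin.castSucc_lt_last t, by rw [snoc_cast]; exact h1⟩
  unfold rr
  rw [if_congr h rfl rfl]

open Classical in
/-- The general form. -/
theorem ste_gen (M P S m : ℕ) (R Q : ℝ) (e : Fin m → ℕ × ℕ) (hS : 1 ≤ S) (hSP : S ≤ P)
    (hm : 1 ≤ m) (hR : R = (Pr P).card * S) (hQ : 3 * (m : ℝ) ^ 2 * P ≤ Q)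
    (hR0 : 0 < R) (q : ℕ × ℕ → Prop) [DecidablePred q]
    (hq : ∀ p n n', q (n, p) → q (n', p) → n < n' + S) :
    ∑ x ∈ (Ed M P).filter q,
      uu (Fin.snoc e x : Fin (m + 1) → ℕ × ℕ) (Fin.last m) /
        rr R Q (Fin.snoc e x : Fin (m + 1) → ℕ × ℕ) (Fin.last m) ≤ 2 := by
  have hP : 1 ≤ P := hS.trans hSP
  have hP' : (1 : ℝ) ≤ P := by exact_mod_cast hP
  have hm' : (1 : ℝ) ≤ m := by exact_mod_cast hm
  have hQ0 : 0 < Q := by
    refine lt_of_lt_of_le ?_ hQ
    positivity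
  -- the inner sums
  set T : ℕ → Finset ℕ := fun p => (Finset.range M).filter fun n => q (n, p) with hT
  have hTc : ∀ p, (T p).card ≤ S := by
    intro p
    apply card_le_of_diff
    intro n hn n' hn'
    exact hq p n n' (Finset.mem_filter.mp hn).2 (Finset.mem_filter.mp hn').2
  have hsum : ∀ g : ℕ × ℕ → ℝ, ∑ x ∈ (Ed M P).filter q, g x =
      ∑ p ∈ Pr P, ∑ n ∈ T p, g (n, p) := by
    intro g
    rw [Finset.sum_filter, Ed, Finset.sum_product_right]
    refine Finset.sum_congr rfl fun p _ => ?_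
    rw [hT, Finset.sum_filter]
  rw [hsum]
  -- old primes
  set O : Finset ℕ := (Finset.univ : Finset (Fin m)).image fun t => (e t).2 with hO
  have hOc : O.card ≤ m := by
    refine Finset.card_image_le.trans ?_
    simp
  have hmem : ∀ p, (∃ t : Fin m, (e t).2 = p) ↔ p ∈ O := by
    intro p
    simp [hO]
  -- bound of one inner sum
  have hnew : ∀ p ∈ Pr P, p ∉ O → ∑ n ∈ T p,
      uu (Fin.snoc e (n, p) : Fin (m + 1) → ℕ × ℕ) (Fin.last m) /
        rr R Q (Fin.snoc e (n, p) : Fin (m + 1) → ℕ × ℕ) (Fin.last m) ≤ S / R := by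
    intro p _ hpO
    have h1 : ∀ n ∈ T p, uu (Fin.snoc e (n, p) : Fin (m + 1) → ℕ × ℕ) (Fin.last m) /
        rr R Q (Fin.snoc e (n, p) : Fin (m + 1) → ℕ × ℕ) (Fin.last m) = 1 / R := by
      intro n _
      rw [uu_last, rr_last, if_neg, if_neg]
      · rw [hmem]; exact hpO
      · rintro ⟨t, ht, _⟩
        exact hpO ((hmem p).mp ⟨t, ht⟩)
    rw [Finset.sum_congr rfl h1, Finset.sum_const, nsmul_eq_mul, mul_one_div]
    gcongr
    exact_mod_cast hTc p
  have hold : ∀ p ∈ Pr P, p ∈ O → ∑ n ∈ T p,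
      uu (Fin.snoc e (n, p) : Fin (m + 1) → ℕ × ℕ) (Fin.last m) /
        rr R Q (Fin.snoc e (n, p) : Fin (m + 1) → ℕ × ℕ) (Fin.last m) ≤
        (S + m * (2 * P)) / Q := by
    intro p hpP hpO
    have hp1 : P < p ∧ p ≤ 2 * P := by
      have := (Finset.mem_filter.mp hpP).1
      exact Finset.mem_Ioc.mp this
    have hp2 : (p : ℝ) ≤ 2 * P := by exact_mod_cast hp1.2
    have h1 : ∀ n ∈ T p, uu (Fin.snoc e (n, p) : Fin (m + 1) → ℕ × ℕ) (Fin.last m) /
        rr R Q (Fin.snoc e (n, p) : Fin (m + 1) → ℕ × ℕ) (Fin.last m) ≤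
        (1 + ∑ t : Fin m, if (e t).1 % p = n % p then (p : ℝ) else 0) / Q := by
      intro n _
      rw [uu_last, rr_last, if_pos ((hmem p).mpr hpO)]
      have h0 : ∀ t : Fin m, (0 : ℝ) ≤ if (e t).1 % p = n % p then (p : ℝ) else 0 := by
        intro t
        split_ifs
        · positivity
        · exact le_rfl
      refine div_le_div_of_nonneg_right ?_ hQ0.le
      split_ifs with h
      · obtain ⟨t, _, ht⟩ := h
        have h3 : (p : ℝ) ≤ ∑ t : Fin m, if (e t).1 % p = n % p then (p : ℝ) else 0 := by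
          have h4 := Finset.single_le_sum (f := fun t : Fin m =>
            if (e t).1 % p = n % p then (p : ℝ) else 0) (fun i _ => h0 i) (Finset.mem_univ t)
          simp only [if_pos ht] at h4
          exact h4
        show (p : ℝ) ≤ _
        linarith
      · have := Finset.sum_nonneg fun (t : Fin m) (_ : t ∈ Finset.univ) => h0 t
        linarith
    refine (Finset.sum_le_sum h1).trans ?_
    rw [← Finset.sum_div]
    refine div_le_div_of_nonneg_right ?_ hQ0.le
    rw [Finset.sum_add_distrib, Finset.sum_const, nsmul_eq_mul, mul_one]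
    refine add_le_add (by exact_mod_cast hTc p) ?_
    rw [Finset.sum_comm]
    have h5 : ∀ t ∈ (Finset.univ : Finset (Fin m)), (∑ n ∈ T p,
        if (e t).1 % p = n % p then (p : ℝ) else 0) ≤ 2 * P := by
      intro t _
      rw [← Finset.sum_filter, Finset.sum_const, nsmul_eq_mul]
      have h6 : ((T p).filter fun n => (e t).1 % p = n % p).card ≤ 1 := by
        rw [Finset.card_le_one]
        intro n hn n' hn'
        rw [Finset.mem_filter] at hn hn'
        have hd1 : n < n' + S := hq p n n' (Finset.mem_filter.mp hn.1).2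
          (Finset.mem_filter.mp hn'.1).2
        have hd2 : n' < n + S := hq p n' n (Finset.mem_filter.mp hn'.1).2
          (Finset.mem_filter.mp hn.1).2
        have hmod : n % p = n' % p := hn.2.symm.trans hn'.2
        rcases le_total n n' with h | h
        · have h7 : p ∣ n' - n := (Nat.modEq_iff_dvd' h).mp hmod
          have h8 : n' - n < p := by omega
          have h9 := Nat.eq_zero_of_dvd_of_lt h7 h8
          omega
        · have h7 : p ∣ n - n' := (Nat.modEq_iff_dvd' h).mp hmod.symm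
          have h8 : n - n' < p := by omega
          have h9 := Nat.eq_zero_of_dvd_of_lt h7 h8
          omega
      have h7 : (((T p).filter fun n => (e t).1 % p = n % p).card : ℝ) ≤ 1 := by
        exact_mod_cast h6
      calc (((T p).filter fun n => (e t).1 % p = n % p).card : ℝ) * p ≤ 1 * (2 * P) := by
            gcongr
        _ = 2 * P := one_mul _
    refine (Finset.sum_le_sum h5).trans ?_
    rw [Finset.sum_const, nsmul_eq_mul]
    simp
  -- total
  rw [← Finset.sum_filter_add_sum_filter_not (Pr P) (fun p => p ∈ O)]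
  have hA : ∑ p ∈ (Pr P).filter (fun p => p ∈ O), ∑ n ∈ T p,
      uu (Fin.snoc e (n, p) : Fin (m + 1) → ℕ × ℕ) (Fin.last m) /
        rr R Q (Fin.snoc e (n, p) : Fin (m + 1) → ℕ × ℕ) (Fin.last m) ≤ 1 := by
    have h1 : ∑ p ∈ (Pr P).filter (fun p => p ∈ O), ∑ n ∈ T p,
        uu (Fin.snoc e (n, p) : Fin (m + 1) → ℕ × ℕ) (Fin.last m) /
          rr R Q (Fin.snoc e (n, p) : Fin (m + 1) → ℕ × ℕ) (Fin.last m) ≤
        ∑ _p ∈ (Pr P).filter (fun p => p ∈ O), ((S : ℝ) + m * (2 * P)) / Q :=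
      Finset.sum_le_sum fun p hp => hold p (Finset.mem_filter.mp hp).1 (Finset.mem_filter.mp hp).2
    refine h1.trans ?_
    rw [Finset.sum_const, nsmul_eq_mul]
    have h2 : ((Pr P).filter (fun p => p ∈ O)).card ≤ m := by
      refine (Finset.card_le_card ?_).trans hOc
      intro p hp
      exact (Finset.mem_filter.mp hp).2
    have h2' : (((Pr P).filter (fun p => p ∈ O)).card : ℝ) ≤ m := by exact_mod_cast h2
    have hSP' : (S : ℝ) ≤ P := by exact_mod_cast hSP
    have h3 : (m : ℝ) * ((S : ℝ) + m * (2 * P)) ≤ Q := by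
      refine le_trans ?_ hQ
      nlinarith [mul_nonneg (sub_nonneg.mpr hm') (by positivity : (0 : ℝ) ≤ m * P)]
    have h4 : 0 ≤ ((S : ℝ) + m * (2 * P)) / Q := by positivity
    calc (((Pr P).filter (fun p => p ∈ O)).card : ℝ) * (((S : ℝ) + m * (2 * P)) / Q)
        ≤ m * (((S : ℝ) + m * (2 * P)) / Q) := by gcongr
      _ = m * ((S : ℝ) + m * (2 * P)) / Q := by ring
      _ ≤ 1 := by rw [div_le_one hQ0]; exact h3
  have hB : ∑ p ∈ (Pr P).filter (fun p => ¬ p ∈ O), ∑ n ∈ T p,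
      uu (Fin.snoc e (n, p) : Fin (m + 1) → ℕ × ℕ) (Fin.last m) /
        rr R Q (Fin.snoc e (n, p) : Fin (m + 1) → ℕ × ℕ) (Fin.last m) ≤ 1 := by
    have h1 : ∑ p ∈ (Pr P).filter (fun p => ¬ p ∈ O), ∑ n ∈ T p,
        uu (Fin.snoc e (n, p) : Fin (m + 1) → ℕ × ℕ) (Fin.last m) /
          rr R Q (Fin.snoc e (n, p) : Fin (m + 1) → ℕ × ℕ) (Fin.last m) ≤
        ∑ _p ∈ (Pr P).filter (fun p => ¬ p ∈ O), ((S : ℝ) / R) :=
      Finset.sum_le_sum fun p hp => hnew p (Finset.mem_filter.mp hp).1 (Finset.mem_filter.mp hp).2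
    refine h1.trans ?_
    rw [Finset.sum_const, nsmul_eq_mul]
    have h2 : (((Pr P).filter (fun p => ¬ p ∈ O)).card : ℝ) ≤ (Pr P).card := by
      exact_mod_cast Finset.card_filter_le _ _
    calc (((Pr P).filter (fun p => ¬ p ∈ O)).card : ℝ) * ((S : ℝ) / R)
        ≤ (Pr P).card * ((S : ℝ) / R) := by gcongr
      _ = (Pr P).card * S / R := by ring
      _ ≤ 1 := by rw [div_le_one hR0, hR]
  linarith

theorem pf_STE : T_STE := by
  intro M P S a m R Q e hS hSP hm _ hR hQ hR0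
  have hS0 : 0 < S := hS
  refine ⟨fun v => ?_, fun v => ?_⟩
  · apply ste_gen M P S m R Q e hS hSP hm hR hQ hR0 (fun x => lc S x = v)
    intro p n n' h h'
    simp only [lc] at h h'
    have h1 := Nat.div_add_mod n S
    have h2 := Nat.div_add_mod n' S
    have h3 := Nat.mod_lt n hS0
    rw [h] at h1
    rw [h'] at h2
    omega
  · apply ste_gen M P S m R Q e hS hSP hm hR hQ hR0 (fun x => rc S a x = v)
    intro p n n' h h'
    simp only [rc] at h h'
    have h1 := Nat.div_add_mod (n + a * p) S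
    have h2 := Nat.div_add_mod (n' + a * p) S
    have h3 := Nat.mod_lt (n + a * p) hS0
    rw [h] at h1
    rw [h'] at h2
    omega

end Pool.Agent.H77.CE
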